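import Mathlib

/-!
# Divisibility: power sums of integers and binomial coefficients
-/

set_option autoImplicit false
set_option linter.all false

namespace Pool.Agent.Q166.E8D

open Finset

theorem dvd8 (a : ℤ) : (40320 : ℤ) ∣ a ^ 8 - 14 * a ^ 6 + 49 * a ^ 4 - 36 * a ^ 2
    - 4 * a ^ 7 + 56 * a ^ 5 - 196 * a ^ 3 + 144 * a := by
  have h := Nat.factorial_coe_dvd_prod 8 (a - 4)
  have h2 : ∏ i ∈ range 8, (a - 4 + (i : ℤ)) = a ^ 8 - 14 * a ^ 6 + 49 * a ^ 4 - 36 * a ^ 2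
    - 4 * a ^ 7 + 56 * a ^ 5 - 196 * a ^ 3 + 144 * a := by
    simp only [prod_range_succ, prod_range_zero]
    push_cast
    ring
  rw [h2] at h
  have h3 : ((Nat.factorial 8 : ℕ) : ℤ) = 40320 := by norm_num [Nat.factorial]
  rw [h3] at h
  exact h

theorem dvd6 (a : ℤ) : (720 : ℤ) ∣ a ^ 6 - 5 * a ^ 4 + 4 * a ^ 2
    - 3 * a ^ 5 + 15 * a ^ 3 - 12 * a := by
  have h := Nat.factorial_coe_dvd_prod 6 (a - 3)
  have h2 : ∏ i ∈ range 6, (a - 3 + (i : ℤ)) = a ^ 6 - 5 * a ^ 4 + 4 * a ^ 2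
    - 3 * a ^ 5 + 15 * a ^ 3 - 12 * a := by
    simp only [prod_range_succ, prod_range_zero]
    push_cast
    ring
  rw [h2] at h
  have h3 : ((Nat.factorial 6 : ℕ) : ℤ) = 720 := by norm_num [Nat.factorial]
  rw [h3] at h
  exact h

theorem dvd4 (a : ℤ) : (24 : ℤ) ∣ a ^ 4 - a ^ 2 - 2 * a ^ 3 + 2 * a := by
  have h := Nat.factorial_coe_dvd_prod 4 (a - 2)
  have h2 : ∏ i ∈ range 4, (a - 2 + (i : ℤ)) = a ^ 4 - a ^ 2 - 2 * a ^ 3 + 2 * a := by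
    simp only [prod_range_succ, prod_range_zero]
    push_cast
    ring
  rw [h2] at h
  have h3 : ((Nat.factorial 4 : ℕ) : ℤ) = 24 := by norm_num [Nat.factorial]
  rw [h3] at h
  exact h

/-- the power sum conditions of a design -/
structure Power {α : Type} (X : Finset α) (f : α → ℤ) (n : ℤ) : Prop where
  p1 : ∑ x ∈ X, f x = 0
  p3 : ∑ x ∈ X, f x ^ 3 = 0
  p5 : ∑ x ∈ X, f x ^ 5 = 0
  p7 : ∑ x ∈ X, f x ^ 7 = 0
  p2 : 2 * ∑ x ∈ X, f x ^ 2 = X.card * n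
  p4 : 5 * ∑ x ∈ X, f x ^ 4 = 3 * X.card * n ^ 2
  p6 : ∑ x ∈ X, f x ^ 6 = X.card * n ^ 3
  p8 : ∑ x ∈ X, f x ^ 8 = 2 * X.card * n ^ 4

section
variable {α : Type} {X : Finset α} {f : α → ℤ} {n : ℤ} (h : Power X f n)
include h

/-- the sum of `f² (f²-1) (f²-4) (f²-9)` -/
theorem Power.sum8 : 5 * ∑ x ∈ X, (f x ^ 8 - 14 * f x ^ 6 + 49 * f x ^ 4 - 36 * f x ^ 2)
    = X.card * (10 * n ^ 4 - 70 * n ^ 3 + 147 * n ^ 2 - 90 * n) := by
  have h1 := h.p2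
  have h2 := h.p4
  have h3 := h.p6
  have h4 := h.p8
  simp only [sum_add_distrib, sum_sub_distrib, ← mul_sum]
  linear_combination 5 * h4 - 70 * h3 + 49 * h2 - 90 * h1

theorem Power.d8 : (201600 : ℤ) ∣ X.card * (10 * n ^ 4 - 70 * n ^ 3 + 147 * n ^ 2 - 90 * n) := by
  have e : ∑ x ∈ X, (f x ^ 8 - 14 * f x ^ 6 + 49 * f x ^ 4 - 36 * f x ^ 2
    - 4 * f x ^ 7 + 56 * f x ^ 5 - 196 * f x ^ 3 + 144 * f x)
      = ∑ x ∈ X, (f x ^ 8 - 14 * f x ^ 6 + 49 * f x ^ 4 - 36 * f x ^ 2) := by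
    have h1 := h.p1
    have h2 := h.p3
    have h3 := h.p5
    have h4 := h.p7
    simp only [sum_add_distrib, sum_sub_distrib, ← mul_sum]
    linear_combination -4 * h4 + 56 * h3 - 196 * h2 + 144 * h1
  have hd : (40320 : ℤ) ∣ ∑ x ∈ X, (f x ^ 8 - 14 * f x ^ 6 + 49 * f x ^ 4 - 36 * f x ^ 2) := by
    rw [← e]
    exact dvd_sum fun x _ => dvd8 (f x)
  rw [← h.sum8]
  obtain ⟨q, hq⟩ := hd
  rw [hq]
  exact ⟨q, by ring⟩

theorem Power.d6 : (720 : ℤ) ∣ X.card * (n ^ 3 - 3 * n ^ 2 + 2 * n) := by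
  have e : ∑ x ∈ X, (f x ^ 6 - 5 * f x ^ 4 + 4 * f x ^ 2
    - 3 * f x ^ 5 + 15 * f x ^ 3 - 12 * f x) = X.card * (n ^ 3 - 3 * n ^ 2 + 2 * n) := by
    have h1 := h.p1
    have h2 := h.p3
    have h3 := h.p5
    have h5 := h.p2
    have h6 := h.p4
    have h7 := h.p6
    simp only [sum_add_distrib, sum_sub_distrib, ← mul_sum]
    linear_combination -3 * h3 + 15 * h2 - 12 * h1 + h7 - h6 + 2 * h5
  rw [← e]
  exact dvd_sum fun x _ => dvd6 (f x)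

theorem Power.d4 : (240 : ℤ) ∣ X.card * (6 * n ^ 2 - 5 * n) := by
  have e : 10 * ∑ x ∈ X, (f x ^ 4 - f x ^ 2 - 2 * f x ^ 3 + 2 * f x)
      = X.card * (6 * n ^ 2 - 5 * n) := by
    have h1 := h.p1
    have h2 := h.p3
    have h5 := h.p2
    have h6 := h.p4
    simp only [sum_add_distrib, sum_sub_distrib, ← mul_sum]
    linear_combination -20 * h2 + 20 * h1 + 2 * h6 - 5 * h5
  have hd : (24 : ℤ) ∣ ∑ x ∈ X, (f x ^ 4 - f x ^ 2 - 2 * f x ^ 3 + 2 * f x) :=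
    dvd_sum fun x _ => dvd4 (f x)
  rw [← e]
  obtain ⟨q, hq⟩ := hd
  rw [hq]
  exact ⟨q, by ring⟩

end

/-! ## Arithmetic -/

theorem pull {p k : ℕ} (hp : p.Prime) {c g : ℤ} (h : ((p ^ k : ℕ) : ℤ) ∣ c * g)
    (hg : ¬ (p : ℤ) ∣ g) : ((p ^ k : ℕ) : ℤ) ∣ c := by
  have hc : IsCoprime ((p ^ k : ℕ) : ℤ) g := by
    rw [Nat.cast_pow]
    apply IsCoprime.pow_left
    exact (Prime.coprime_iff_not_dvd (Nat.prime_iff_prime_int.mp hp)).mpr hg
  exact hc.dvd_of_dvd_mul_right h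

/-- `c (10 n^4 - ...)` and so on, for `n = m` and `n = 2 m` -/
structure Cond (c m : ℤ) : Prop where
  a8 : (201600 : ℤ) ∣ c * (10 * m ^ 4 - 70 * m ^ 3 + 147 * m ^ 2 - 90 * m)
  b8 : (201600 : ℤ) ∣ c * (10 * (2 * m) ^ 4 - 70 * (2 * m) ^ 3 + 147 * (2 * m) ^ 2 - 90 * (2 * m))
  a6 : (720 : ℤ) ∣ c * (m ^ 3 - 3 * m ^ 2 + 2 * m)
  a4 : (240 : ℤ) ∣ c * (6 * m ^ 2 - 5 * m)

section
variable {c m : ℤ} (h : Cond c m)
include h

theorem Cond.seven (hm : ¬ (7 : ℤ) ∣ m) : (7 : ℤ) ∣ c := by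
  have h1 : ((7 ^ 1 : ℕ) : ℤ) ∣ c * (10 * m ^ 4 - 70 * m ^ 3 + 147 * m ^ 2 - 90 * m) :=
    dvd_trans (by norm_num) h.a8
  have h2 := pull (by norm_num : Nat.Prime 7) h1 (by
    intro h3
    apply hm
    rw [Nat.cast_ofNat] at h3
    have h4 : m % 7 = 0 ∨ m % 7 = 1 ∨ m % 7 = 2 ∨ m % 7 = 3 ∨ m % 7 = 4 ∨ m % 7 = 5 ∨ m % 7 = 6 := by
      omega
    have h5 := Int.emod_emod_of_dvd m (dvd_refl (7 : ℤ))
    rw [Int.dvd_iff_emod_eq_zero] at h3 ⊢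
    rcases h4 with h4 | h4 | h4 | h4 | h4 | h4 | h4 <;>
    · simp [Int.sub_emod, Int.add_emod, Int.mul_emod, pow_succ, h4] at h3 ⊢)
  simpa using h2


theorem Cond.five (hm : ¬ (5 : ℤ) ∣ m) : (25 : ℤ) ∣ c := by
  have h1 : ((5 ^ 2 : ℕ) : ℤ) ∣ c * (10 * m ^ 4 - 70 * m ^ 3 + 147 * m ^ 2 - 90 * m) :=
    dvd_trans (by norm_num) h.a8
  have h2 := pull (by norm_num : Nat.Prime 5) h1 (by
    intro h3
    apply hm
    rw [Nat.cast_ofNat] at h3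
    have h4 : m % 5 = 0 ∨ m % 5 = 1 ∨ m % 5 = 2 ∨ m % 5 = 3 ∨ m % 5 = 4 := by
      omega
    rw [Int.dvd_iff_emod_eq_zero] at h3 ⊢
    rcases h4 with h4 | h4 | h4 | h4 | h4 <;>
    · simp [Int.sub_emod, Int.add_emod, Int.mul_emod, pow_succ, h4] at h3 ⊢)
  simpa using h2

theorem Cond.nine (hm : ¬ (3 : ℤ) ∣ m) : (9 : ℤ) ∣ c := by
  have h4 : m % 3 = 1 ∨ m % 3 = 2 := by omega
  rcases h4 with h4 | h4
  · have h1 : ((3 ^ 2 : ℕ) : ℤ) ∣ c * (10 * (2 * m) ^ 4 - 70 * (2 * m) ^ 3 + 147 * (2 * m) ^ 2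
        - 90 * (2 * m)) := dvd_trans (by norm_num) h.b8
    have h2 := pull (by norm_num : Nat.Prime 3) h1 (by
      intro h3
      rw [Nat.cast_ofNat] at h3
      rw [Int.dvd_iff_emod_eq_zero] at h3
      simp [Int.sub_emod, Int.add_emod, Int.mul_emod, pow_succ, h4] at h3)
    simpa using h2
  · have h1 : ((3 ^ 2 : ℕ) : ℤ) ∣ c * (10 * m ^ 4 - 70 * m ^ 3 + 147 * m ^ 2 - 90 * m) :=
      dvd_trans (by norm_num) h.a8
    have h2 := pull (by norm_num : Nat.Prime 3) h1 (by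
      intro h3
      rw [Nat.cast_ofNat] at h3
      rw [Int.dvd_iff_emod_eq_zero] at h3
      simp [Int.sub_emod, Int.add_emod, Int.mul_emod, pow_succ, h4] at h3)
    simpa using h2

theorem Cond.three (hm : ¬ (9 : ℤ) ∣ m) : (3 : ℤ) ∣ c := by
  by_cases h3 : (3 : ℤ) ∣ m
  · obtain ⟨u, rfl⟩ := h3
    have hu : ¬ (3 : ℤ) ∣ u := by omega
    have h1 : (9 : ℤ) ∣ c * ((3 * u) ^ 3 - 3 * (3 * u) ^ 2 + 2 * (3 * u)) :=
      dvd_trans (by norm_num) h.a6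
    have h2 : (3 : ℤ) * 3 ∣ 3 * (c * (u * (9 * u ^ 2 - 9 * u + 2))) := by
      have e : (3 : ℤ) * (c * (u * (9 * u ^ 2 - 9 * u + 2)))
        = c * ((3 * u) ^ 3 - 3 * (3 * u) ^ 2 + 2 * (3 * u)) := by ring
      rw [e]
      simpa using h1
    have h4 : (3 : ℤ) ∣ c * (u * (9 * u ^ 2 - 9 * u + 2)) :=
      Int.dvd_of_mul_dvd_mul_left (by norm_num) h2
    have h5 := pull (p := 3) (k := 1) (by norm_num) (c := c)
      (g := u * (9 * u ^ 2 - 9 * u + 2)) (by simpa using h4) (by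
      intro h6
      rw [Nat.cast_ofNat] at h6
      rcases (Int.prime_three.dvd_mul).mp h6 with h7 | h7
      · exact hu h7
      · obtain ⟨q, hq⟩ := h7
        have : (2 : ℤ) = 3 * (q - 3 * u ^ 2 + 3 * u) := by linarith
        omega)
    simpa using h5
  · exact dvd_trans (by norm_num) (h.nine h3)

theorem Cond.odd (hm : ¬ (2 : ℤ) ∣ m) : (128 : ℤ) ∣ c := by
  have h1 : ((2 ^ 7 : ℕ) : ℤ) ∣ c * (10 * m ^ 4 - 70 * m ^ 3 + 147 * m ^ 2 - 90 * m) :=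
    dvd_trans (by norm_num) h.a8
  have h2 := pull (by norm_num : Nat.Prime 2) h1 (by
    intro h3
    rw [Nat.cast_ofNat] at h3
    have h4 : m % 2 = 1 := by omega
    rw [Int.dvd_iff_emod_eq_zero] at h3
    simp [Int.sub_emod, Int.add_emod, Int.mul_emod, pow_succ, h4] at h3)
  simpa using h2

theorem Cond.two4 {v : ℤ} (hm : m = 4 * v ∨ 2 * m = 4 * v) : (16 : ℤ) ∣ c * v := by
  have h1 : (128 : ℤ) ∣ c * (10 * (4 * v) ^ 4 - 70 * (4 * v) ^ 3 + 147 * (4 * v) ^ 2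
      - 90 * (4 * v)) := by
    rcases hm with hm | hm
    · rw [← hm]; exact dvd_trans (by norm_num) h.a8
    · rw [← hm]; exact dvd_trans (by norm_num) h.b8
  have e : (8 : ℤ) * 16 ∣ 8 * (c * v * (320 * v ^ 3 - 560 * v ^ 2 + 294 * v - 45)) := by
    have e2 : (8 : ℤ) * (c * v * (320 * v ^ 3 - 560 * v ^ 2 + 294 * v - 45))
      = c * (10 * (4 * v) ^ 4 - 70 * (4 * v) ^ 3 + 147 * (4 * v) ^ 2 - 90 * (4 * v)) := by ring
    rw [e2]
    simpa using h1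
  have h2 : (16 : ℤ) ∣ c * v * (320 * v ^ 3 - 560 * v ^ 2 + 294 * v - 45) :=
    Int.dvd_of_mul_dvd_mul_left (by norm_num) e
  have h3 := pull (p := 2) (k := 4) (by norm_num) (c := c * v)
      (g := 320 * v ^ 3 - 560 * v ^ 2 + 294 * v - 45) (by simpa using h2) (by
      rw [Nat.cast_ofNat]
      intro h4
      have h5 : (2 : ℤ) ∣ 2 * (160 * v ^ 3 - 280 * v ^ 2 + 147 * v) := ⟨_, rfl⟩
      have h6 := dvd_sub h5 h4
      have h7 : 2 * (160 * v ^ 3 - 280 * v ^ 2 + 147 * v)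
        - (320 * v ^ 3 - 560 * v ^ 2 + 294 * v - 45) = 45 := by ring
      rw [h7] at h6
      norm_num at h6)
  simpa using h3

omit h in
theorem pull2 : ∀ (b a : ℕ) (c v : ℤ), (2 : ℤ) ^ (a + b) ∣ c * v → ¬ (2 : ℤ) ^ (b + 1) ∣ v →
    (2 : ℤ) ^ a ∣ c := by
  intro b
  induction b with
  | zero =>
    intro a c v h1 h2
    have := pull (p := 2) (k := a) (by norm_num) (c := c) (g := v) (by simpa using h1)
      (by simpa using h2)
    simpa using this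
  | succ b ih =>
    intro a c v h1 h2
    by_cases h3 : (2 : ℤ) ∣ v
    · obtain ⟨w, rfl⟩ := h3
      apply ih a c w
      · have e : (2 : ℤ) * 2 ^ (a + b) ∣ 2 * (c * w) := by
          have e1 : (2 : ℤ) * 2 ^ (a + b) = 2 ^ (a + (b + 1)) := by ring
          have e2 : 2 * (c * w) = c * (2 * w) := by ring
          rw [e1, e2]; exact h1
        exact Int.dvd_of_mul_dvd_mul_left (by norm_num) e
      · intro h4
        apply h2
        have e1 : (2 : ℤ) ^ (b + 1 + 1) = 2 * 2 ^ (b + 1) := by ring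
        rw [e1]
        exact mul_dvd_mul_left 2 h4
    · have := pull (p := 2) (k := a + (b + 1)) (by norm_num) (c := c) (g := v) (by simpa using h1)
        (by simpa using h3)
      have h5 : (2 : ℤ) ^ (a + (b + 1)) ∣ c := by simpa using this
      exact dvd_trans (pow_dvd_pow 2 (by omega)) h5

/-- `2^(4-j)` divides `c` if `2^(3+j)` does not divide `m` -/
theorem Cond.two (j : ℕ) (hj : j ≤ 4) (hm : ¬ (2 : ℤ) ^ (3 + j) ∣ m) : (2 : ℤ) ^ (4 - j) ∣ c := by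
  by_cases h2 : (2 : ℤ) ∣ m
  · by_cases h4 : (4 : ℤ) ∣ m
    · obtain ⟨v, rfl⟩ := h4
      have h5 := h.two4 (v := v) (Or.inl rfl)
      apply pull2 j (4 - j) c v
      · have : 4 - j + j = 4 := by omega
        rw [this]
        norm_num
        exact h5
      · intro h6
        apply hm
        have e1 : (2 : ℤ) ^ (3 + j) = 4 * 2 ^ (j + 1) := by ring
        rw [e1]
        exact mul_dvd_mul_left 4 h6
    · obtain ⟨u, rfl⟩ := h2
      have h5 := h.two4 (v := u) (Or.inr (by ring))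
      have h6 : (2 : ℤ) ^ 4 ∣ c := by
        apply pull2 0 4 c u
        · norm_num; exact h5
        · intro h7; omega
      exact dvd_trans (pow_dvd_pow 2 (by omega)) h6
  · have h5 := h.odd h2
    have h6 : (2 : ℤ) ^ 7 ∣ c := by norm_num; exact h5
    exact dvd_trans (pow_dvd_pow 2 (by omega)) h6

end

end Pool.Agent.Q166.E8D
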