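import Pool.Agent.Q166.E8D.Sum
import Pool.Agent.Q166.E8D.Arith

/-!
# Spherical 8-designs inside the shells of `E₈`
-/

set_option autoImplicit false
set_option linter.all false

namespace Pool.Agent.Q166.E8D

open Finset Pool.Agent.H159.EW

theorem power_of {N : ℝ} {X : Finset (Fin 8 → ℚ)} (hd : IsDesign 8 N X) (hN : 0 ≤ N)
    (y : Fin 8 → ℝ) (hy : y ≠ 0) (f : (Fin 8 → ℚ) → ℤ)
    (hf : ∀ x ∈ X, (f x : ℝ) = ∑ i, y i * (x i : ℝ)) (n : ℤ)
    (hn : N * ∑ i, y i ^ 2 = 4 * n) : Power X f n := by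
  have hodd : ∀ k, k ≤ 8 → Odd k → ∑ x ∈ X, f x ^ k = 0 := by
    intro k hk ho
    have h := psum_odd hd y hy hk ho
    have h2 : ((∑ x ∈ X, f x ^ k : ℤ) : ℝ) = 0 := by
      push_cast
      rw [← h]
      exact Finset.sum_congr rfl fun x hx => by rw [hf x hx]
    exact_mod_cast h2
  have hev : ∀ k, ((∑ x ∈ X, f x ^ k : ℤ) : ℝ) = ∑ x ∈ X, (∑ i, y i * (x i : ℝ)) ^ k := by
    intro k
    push_cast
    exact Finset.sum_congr rfl fun x hx => by rw [hf x hx]
  refine ⟨?_, hodd 3 (by norm_num) (by decide), hodd 5 (by norm_num) (by decide),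
    hodd 7 (by norm_num) (by decide), ?_, ?_, ?_, ?_⟩
  · have := hodd 1 (by norm_num) (by decide)
    simpa using this
  · have h := psum2 hd hN y hy
    rw [← hev 2, hn] at h
    have h2 : ((2 * ∑ x ∈ X, f x ^ 2 : ℤ) : ℝ) = ((X.card * n : ℤ) : ℝ) := by
      rw [Int.cast_mul, h]
      push_cast
      ring
    exact_mod_cast h2
  · have h := psum4 hd hN y hy
    rw [← hev 4, hn] at h
    have h2 : ((5 * ∑ x ∈ X, f x ^ 4 : ℤ) : ℝ) = ((3 * X.card * n ^ 2 : ℤ) : ℝ) := by
      rw [Int.cast_mul, h]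
      push_cast
      ring
    exact_mod_cast h2
  · have h := psum6 hd hN y hy
    rw [← hev 6, hn] at h
    have h2 : ((∑ x ∈ X, f x ^ 6 : ℤ) : ℝ) = ((X.card * n ^ 3 : ℤ) : ℝ) := by
      rw [h]
      push_cast
      ring
    exact_mod_cast h2
  · have h := psum8 hd hN y hy
    rw [← hev 8, hn] at h
    have h2 : ((∑ x ∈ X, f x ^ 8 : ℤ) : ℝ) = ((2 * X.card * n ^ 4 : ℤ) : ℝ) := by
      rw [h]
      push_cast
      ring
    exact_mod_cast h2

/-- the product with the root `(1,1,0,...,0)` -/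
noncomputable def f1 (x : Fin 8 → ℚ) : ℤ := ⌊x 0 + x 1⌋

/-- the product with the vector `(2,0,...,0)` -/
noncomputable def f2 (x : Fin 8 → ℚ) : ℤ := ⌊2 * x 0⌋

theorem f1_eq {x : Fin 8 → ℚ} (hx : x ∈ E8) : (f1 x : ℚ) = x 0 + x 1 := by
  obtain ⟨v, ⟨hp, _⟩, hv⟩ := hx
  have h := hp 0 1
  obtain ⟨q, hq⟩ : ∃ q : ℤ, v 0 + v 1 = 2 * q := ⟨(v 0 + v 1) / 2, by omega⟩
  have h2 : x 0 + x 1 = (q : ℚ) := by
    rw [hv 0, hv 1]
    have : ((v 0 : ℚ)) + v 1 = 2 * q := by exact_mod_cast hq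
    linarith
  unfold f1
  rw [h2, Int.floor_intCast]

theorem f2_eq {x : Fin 8 → ℚ} (hx : x ∈ E8) : (f2 x : ℚ) = 2 * x 0 := by
  obtain ⟨v, _, hv⟩ := hx
  have h2 : 2 * x 0 = ((v 0 : ℤ) : ℚ) := by
    rw [hv 0]; ring
  unfold f2
  rw [h2, Int.floor_intCast]

theorem val4 {a : ℤ} (h4 : a ≤ 4) (h5 : -4 ≤ a) (h7 : a ≠ 4) (h8 : a ≠ -4) :
    a ^ 8 - 14 * a ^ 6 + 49 * a ^ 4 - 36 * a ^ 2 ≤ 0 := by
  interval_cases a
  · exact absurd rfl h8
  all_goals first | exact absurd rfl h7 | norm_num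

theorem small0 {c : ℤ} (d : (25200 : ℤ) ∣ c) (h0 : 0 ≤ c) (h : c ≤ 2800) : c = 0 := by omega

section
variable {m : ℕ} {X : Finset (Fin 8 → ℚ)} (hX : ∀ x ∈ X, x ∈ E8 ∧ nsq x = 2 * m)
  (hd : IsDesign 8 (2 * m) X)
include hX hd

theorem power1 : Power X f1 m := by
  refine power_of hd (by positivity) (fun i => if i = 0 then 1 else if i = 1 then 1 else 0) ?_ f1
    ?_ m ?_
  · intro h
    have := congrFun h 0
    simp at this
  · intro x hx
    have h := f1_eq (hX x hx).1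
    have h2 : (f1 x : ℝ) = ((f1 x : ℚ) : ℝ) := by simp
    rw [h2, h]
    push_cast
    simp [Fin.sum_univ_eight]
  · simp [Fin.sum_univ_eight]
    ring

theorem power2 : Power X f2 (2 * m) := by
  refine power_of hd (by positivity) (fun i => if i = 0 then 2 else 0) ?_ f2 ?_ (2 * m) ?_
  · intro h
    have := congrFun h 0
    simp at this
  · intro x hx
    have h := f2_eq (hX x hx).1
    have h2 : (f2 x : ℝ) = ((f2 x : ℚ) : ℝ) := by simp
    rw [h2, h]
    push_cast
    simp [Fin.sum_univ_eight]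
  · simp [Fin.sum_univ_eight]
    ring

theorem cond : Cond (X.card : ℤ) m :=
  ⟨(power1 hX hd).d8, (power2 hX hd).d8, (power1 hX hd).d6, (power1 hX hd).d4⟩

theorem f1_sq {x : Fin 8 → ℚ} (hx : x ∈ X) : f1 x ^ 2 ≤ 4 * m := by
  have h := f1_eq (hX x hx).1
  have h2 := (hX x hx).2
  unfold nsq at h2
  rw [Fin.sum_univ_eight] at h2
  have h3 : ((f1 x ^ 2 : ℤ) : ℚ) ≤ ((4 * m : ℤ) : ℚ) := by
    push_cast
    rw [h]
    nlinarith [sq_nonneg (x 0 - x 1), sq_nonneg (x 2), sq_nonneg (x 3), sq_nonneg (x 4),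
      sq_nonneg (x 5), sq_nonneg (x 6), sq_nonneg (x 7)]
  exact_mod_cast h3

theorem empty3 (hm0 : 0 < m) (hm : m ≤ 3) : X = ∅ := by
  have h := (power1 hX hd).sum8
  have h1 : ∑ x ∈ X, (f1 x ^ 8 - 14 * f1 x ^ 6 + 49 * f1 x ^ 4 - 36 * f1 x ^ 2) = 0 := by
    refine Finset.sum_eq_zero fun x hx => ?_
    have h2 := f1_sq hX hd hx
    have h3 : f1 x ^ 2 ≤ 12 := by
      have : (m : ℤ) ≤ 3 := by exact_mod_cast hm
      linarith
    have h4 : f1 x ≤ 3 := by nlinarith
    have h5 : -3 ≤ f1 x := by nlinarith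
    generalize f1 x = a at *
    interval_cases a <;> norm_num
  rw [h1] at h
  have h6 : (X.card : ℤ) = 0 := by
    have h7 : m = 1 ∨ m = 2 ∨ m = 3 := by omega
    rcases h7 with rfl | rfl | rfl <;> norm_num at h <;> simpa using h
  exact Finset.card_eq_zero.mp (by exact_mod_cast h6)

theorem empty4 (hm : m = 4) : X = ∅ := by
  classical
  subst hm
  have h := (power1 hX hd).sum8
  set u : Fin 8 → ℚ := fun i => if i = 0 then 2 else if i = 1 then 2 else 0 with hu
  set w : Fin 8 → ℚ := fun i => if i = 0 then -2 else if i = 1 then -2 else 0 with hw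
  have hle : ∀ x ∈ X, f1 x ^ 8 - 14 * f1 x ^ 6 + 49 * f1 x ^ 4 - 36 * f1 x ^ 2
      ≤ if x ∈ ({u, w} : Finset (Fin 8 → ℚ)) then 20160 else 0 := by
    intro x hx
    have h2 := f1_sq hX hd hx
    have hf := f1_eq (hX x hx).1
    have hn := (hX x hx).2
    unfold nsq at hn
    rw [Fin.sum_univ_eight] at hn
    have h3 : f1 x ^ 2 ≤ 16 := by
      push_cast at h2
      linarith
    have h4 : f1 x ≤ 4 := by nlinarith
    have h5 : -4 ≤ f1 x := by nlinarith
    by_cases hc : f1 x = 4 ∨ f1 x = -4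
    · have hmem : x ∈ ({u, w} : Finset (Fin 8 → ℚ)) := by
        rw [Finset.mem_insert, Finset.mem_singleton]
        push_cast at hn
        have key : ∀ s : ℚ, x 0 + x 1 = 2 * s → s ^ 2 = 4 →
            x 0 = s ∧ x 1 = s ∧ x 2 = 0 ∧ x 3 = 0 ∧ x 4 = 0 ∧ x 5 = 0 ∧ x 6 = 0 ∧ x 7 = 0 := by
          intro s h6 h7
          have h8 : (x 0 - s) ^ 2 + (x 1 - s) ^ 2 + x 2 ^ 2 + x 3 ^ 2 + x 4 ^ 2 + x 5 ^ 2
              + x 6 ^ 2 + x 7 ^ 2 = 0 := by
            have e : (x 0 - s) ^ 2 + (x 1 - s) ^ 2 = x 0 ^ 2 + x 1 ^ 2 - 2 * s * (x 0 + x 1)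
              + 2 * s ^ 2 := by ring
            rw [e, h6]
            nlinarith
          have a0 := sq_nonneg (x 0 - s)
          have a1 := sq_nonneg (x 1 - s)
          have a2 := sq_nonneg (x 2)
          have a3 := sq_nonneg (x 3)
          have a4 := sq_nonneg (x 4)
          have a5 := sq_nonneg (x 5)
          have a6 := sq_nonneg (x 6)
          have a7 := sq_nonneg (x 7)
          refine ⟨?_, ?_, ?_, ?_, ?_, ?_, ?_, ?_⟩
          · have : (x 0 - s) ^ 2 = 0 := by linarith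
            have := pow_eq_zero_iff (two_ne_zero) |>.mp this
            linarith
          · have : (x 1 - s) ^ 2 = 0 := by linarith
            have := pow_eq_zero_iff (two_ne_zero) |>.mp this
            linarith
          · exact pow_eq_zero_iff (two_ne_zero) |>.mp (by linarith)
          · exact pow_eq_zero_iff (two_ne_zero) |>.mp (by linarith)
          · exact pow_eq_zero_iff (two_ne_zero) |>.mp (by linarith)
          · exact pow_eq_zero_iff (two_ne_zero) |>.mp (by linarith)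
          · exact pow_eq_zero_iff (two_ne_zero) |>.mp (by linarith)
          · exact pow_eq_zero_iff (two_ne_zero) |>.mp (by linarith)
        rcases hc with hc | hc
        · left
          rw [hc] at hf
          obtain ⟨b0, b1, b2, b3, b4, b5, b6, b7⟩ := key 2 (by push_cast at hf; linarith)
            (by norm_num)
          funext i
          fin_cases i <;> simp [hu, *]
        · right
          rw [hc] at hf
          obtain ⟨b0, b1, b2, b3, b4, b5, b6, b7⟩ := key (-2) (by push_cast at hf; linarith)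
            (by norm_num)
          funext i
          fin_cases i <;> simp [hw, *]
      rw [if_pos hmem]
      rcases hc with hc | hc
      · rw [hc]; try norm_num
      · rw [hc]; try norm_num
    · have h6 : f1 x ^ 8 - 14 * f1 x ^ 6 + 49 * f1 x ^ 4 - 36 * f1 x ^ 2 ≤ 0 := by
        have h7 : f1 x ≠ 4 := fun e => hc (Or.inl e)
        have h8 : f1 x ≠ -4 := fun e => hc (Or.inr e)
        exact val4 h4 h5 h7 h8
      refine h6.trans ?_
      split_ifs <;> norm_num
  have hs : ∑ x ∈ X, (f1 x ^ 8 - 14 * f1 x ^ 6 + 49 * f1 x ^ 4 - 36 * f1 x ^ 2) ≤ 40320 := by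
    refine (Finset.sum_le_sum hle).trans ?_
    rw [← Finset.sum_filter, Finset.sum_const]
    have h1 : (X.filter fun x => x ∈ ({u, w} : Finset (Fin 8 → ℚ))).card ≤ 2 := by
      refine (Finset.card_le_card (t := {u, w}) ?_).trans Finset.card_le_two
      intro x hx
      exact (Finset.mem_filter.mp hx).2
    rw [nsmul_eq_mul]
    have h2 : (((X.filter fun x => x ∈ ({u, w} : Finset (Fin 8 → ℚ))).card : ℕ) : ℤ) ≤ 2 := by
      exact_mod_cast h1
    linarith
  have hc := cond hX hd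
  have c7 : (7 : ℤ) ∣ X.card := hc.seven (by norm_num)
  have c25 : (25 : ℤ) ∣ X.card := hc.five (by norm_num)
  have c9 : (9 : ℤ) ∣ X.card := hc.nine (by norm_num)
  have c16 : (16 : ℤ) ∣ X.card := by
    have := hc.two 0 (by norm_num) (by norm_num)
    simpa using this
  push_cast at h
  have h0 : (0 : ℤ) ≤ X.card := by positivity
  have h8 : (X.card : ℤ) ≤ 2800 := by linarith
  have d1 : (7 * 25 : ℤ) ∣ X.card := IsCoprime.mul_dvd (by norm_num) c7 c25
  have d2 : (9 * 16 : ℤ) ∣ X.card := IsCoprime.mul_dvd (by norm_num) c9 c16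
  have d3 : (7 * 25 * (9 * 16) : ℤ) ∣ X.card := IsCoprime.mul_dvd (by norm_num) d1 d2
  have h9 : (X.card : ℤ) = 0 := small0 (by norm_num at d3; exact d3) h0 h8
  exact Finset.card_eq_zero.mp (by exact_mod_cast h9)

end

end Pool.Agent.Q166.E8D
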