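import Pool.Agent.Q65.EWm.Mom

/-!
# All moments of linear forms on the sphere `S⁷`, and power sums of designs
-/

set_option autoImplicit false
set_option linter.all false

namespace Pool.Agent.Q166.E8D

open MeasureTheory MeasureTheory.Measure Set Real
open scoped RealInnerProductSpace
open Pool.Agent.Q65.EWm

/-- the one-dimensional Gaussian moment -/
noncomputable def J (k : ℕ) : ℝ := ∫ y : ℝ, y ^ k * Real.exp (- y ^ 2)

theorem J_odd {k : ℕ} (hk : Odd k) : J k = 0 := by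
  have h : J k = - J k := by
    unfold J
    rw [← integral_neg]
    rw [← integral_neg_eq_self]
    refine integral_congr_ae (Filter.Eventually.of_forall fun y => ?_)
    simp only
    rw [hk.neg_pow, neg_sq]
    ring
  linarith

theorem J_even {k : ℕ} (hk : Even k) : J k = Real.Gamma ((k + 1) / 2) := by
  unfold J
  have h1 : ∫ y : ℝ, y ^ k * Real.exp (- y ^ 2) =
      ∫ y : ℝ, (fun z : ℝ => z ^ k * Real.exp (- z ^ 2)) |y| := by
    refine integral_congr_ae (Filter.Eventually.of_forall fun y => ?_)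
    simp only
    rw [sq_abs, hk.pow_abs]
  rw [h1]
  have h2 := integral_comp_abs (f := fun z : ℝ => z ^ k * Real.exp (- z ^ 2))
  rw [h2, gam]
  ring

theorem rad (k : ℕ) : ∫ y in Ioi (0 : ℝ), y ^ 7 * (y ^ k * Real.exp (- y ^ 2)) =
    (1 / 2) * Real.Gamma (((7 + k : ℕ) + 1) / 2) := by
  have h : ∀ y : ℝ, y ^ 7 * (y ^ k * Real.exp (- y ^ 2)) = y ^ (7 + k) * Real.exp (- y ^ 2) := by
    intro y; rw [pow_add]; ring
  simp only [h]
  rw [gam]

theorem one_coord (k : ℕ) : ∫ x : E, (x 0) ^ k * Real.exp (- ‖x‖ ^ 2) ∂(volume : Measure E) =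
    J k * Real.sqrt Real.pi ^ 7 := by
  simp only [norm_sq']
  rw [toPi (fun x => (x 0) ^ k * Real.exp (- ∑ i, x i ^ 2))]
  have h : ∀ x : Fin 8 → ℝ, (x 0) ^ k * Real.exp (- ∑ i, x i ^ 2) =
      ∏ i, (fun (i : Fin 8) (y : ℝ) => (if i = 0 then y ^ k else 1) * Real.exp (- y ^ 2)) i (x i) := by
    intro x
    simp only
    rw [Finset.prod_mul_distrib, ← Real.exp_sum, Finset.sum_neg_distrib]
    congr 1
    simp [Finset.prod_ite_eq']
  simp only [h]
  rw [integral_fintype_prod_volume_eq_prod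
    (fun (i : Fin 8) (y : ℝ) => (if i = 0 then y ^ k else 1) * Real.exp (- y ^ 2))]
  rw [Fin.prod_univ_succ]
  simp only [if_true, Fin.succ_ne_zero, if_false, one_mul, gau, Finset.prod_const,
    Finset.card_univ, Fintype.card_fin]
  rfl

theorem lin (k : ℕ) (y : E) (hy : y ≠ 0) :
    ∫ x : E, (⟪y, x⟫) ^ k * Real.exp (- ‖x‖ ^ 2) ∂(volume : Measure E) =
    ‖y‖ ^ k * (J k * Real.sqrt Real.pi ^ 7) := by
  have hn : ‖y‖ ≠ 0 := norm_ne_zero_iff.mpr hy
  set v : E := ‖y‖⁻¹ • y with hv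
  have hv1 : ‖v‖ = 1 := by
    rw [hv, norm_smul, norm_inv, norm_norm, inv_mul_cancel₀ hn]
  have hyv : y = ‖y‖ • v := by
    rw [hv, smul_smul, mul_inv_cancel₀ hn, one_smul]
  obtain ⟨b, hb⟩ := Orthonormal.exists_orthonormalBasis_extension_of_card_eq (𝕜 := ℝ) (E := E)
    (ι := Fin 8) (by simp) (v := fun _ => v) (s := {0})
    (by
      constructor
      · intro i; exact hv1
      · intro i j hij
        exact absurd (Subsingleton.elim i j) hij)
  have hb0 : b 0 = v := hb 0 rfl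
  have h1 : ∀ x : E, (⟪y, x⟫) ^ k * Real.exp (- ‖x‖ ^ 2) =
      ‖y‖ ^ k * ((b.repr x 0) ^ k * Real.exp (- ‖b.repr x‖ ^ 2)) := by
    intro x
    rw [b.repr.norm_map, b.repr_apply_apply, hb0]
    conv_lhs => rw [hyv, real_inner_smul_left]
    rw [mul_pow]
    ring
  simp only [h1]
  rw [integral_const_mul]
  congr 1
  have h2 := b.repr.measurePreserving.integral_comp b.repr.toHomeomorph.measurableEmbedding
    (fun x : E => (x 0) ^ k * Real.exp (- ‖x‖ ^ 2))
  rw [h2, one_coord]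

/-- the total mass of the sphere -/
theorem vol3 : ((volume : Measure E).toSphere Set.univ).toReal * 3 = Real.sqrt Real.pi ^ 8 := by
  have hsph : ∀ u : Metric.sphere (0 : E) 1, ‖(u : E)‖ = 1 := fun u => by
    simpa using u.2
  have h5 := tot
  rw [polar] at h5
  have h6 : ∫ p, Real.exp (- ‖((p.2 : ℝ) • (p.1 : E))‖ ^ 2)
      ∂((volume : Measure E).toSphere.prod (volumeIoiPow 7)) =
      ((volume : Measure E).toSphere Set.univ).toReal * 3 := by
    have h3 : ∀ p : Metric.sphere (0 : E) 1 × Ioi (0 : ℝ),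
        Real.exp (- ‖((p.2 : ℝ) • (p.1 : E))‖ ^ 2) =
        (1 : ℝ) * (Real.exp (- (p.2 : ℝ) ^ 2)) := by
      intro p
      have hp : 0 < (p.2 : ℝ) := p.2.2
      rw [norm_smul, hsph, mul_one, Real.norm_eq_abs, sq_abs, one_mul]
    simp only [h3]
    have h4 := integral_prod_mul (μ := (volume : Measure E).toSphere) (ν := volumeIoiPow 7)
      (fun u : Metric.sphere (0 : E) 1 => (1 : ℝ))
      (fun r : Ioi (0 : ℝ) => (Real.exp (- (r : ℝ) ^ 2)))
    rw [h4, ipow 7 (fun r => Real.exp (- r ^ 2)), gam4]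
    simp [Measure.real]
  rw [h6] at h5
  rw [h5, sqrt_pi_pow]

/-- the moments of a linear form on the sphere -/
theorem mom (k : ℕ) (y : Fin 8 → ℝ) (hy : y ≠ 0) :
    (∫ u, (∑ i, y i * (u : E) i) ^ k ∂((volume : Measure E).toSphere))
      * ((1 / 2) * Real.Gamma (((7 + k : ℕ) + 1) / 2))
      = Real.sqrt (∑ i, y i ^ 2) ^ k * (J k * Real.sqrt Real.pi ^ 7) := by
  set S := ∫ u, (∑ i, y i * (u : E) i) ^ k ∂((volume : Measure E).toSphere) with hS
  set y' : E := WithLp.toLp 2 y with hy'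
  have hy0 : y' ≠ 0 := by
    intro h
    apply hy
    funext i
    have := congrArg (fun z : E => z i) h
    simpa [hy'] using this
  have hin : ∀ x : E, ⟪y', x⟫ = ∑ i, y i * x i := by
    intro x
    rw [PiLp.inner_apply]
    refine Finset.sum_congr rfl fun i _ => ?_
    rw [real_inner_comm]
    simp [hy']
    try ring
  have hny : ‖y'‖ = Real.sqrt (∑ i, y i ^ 2) := by
    have h : ‖y'‖ ^ 2 = ∑ i, y i ^ 2 := by rw [norm_sq']
    rw [← h, Real.sqrt_sq (norm_nonneg _)]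
  have hsph : ∀ u : Metric.sphere (0 : E) 1, ‖(u : E)‖ = 1 := fun u => by
    simpa using u.2
  have h1 := lin k y' hy0
  rw [polar] at h1
  have h2 : ∫ p, (⟪y', ((p.2 : ℝ) • (p.1 : E))⟫) ^ k * Real.exp (- ‖((p.2 : ℝ) • (p.1 : E))‖ ^ 2)
      ∂((volume : Measure E).toSphere.prod (volumeIoiPow 7)) =
      S * ((1 / 2) * Real.Gamma (((7 + k : ℕ) + 1) / 2)) := by
    have h3 : ∀ p : Metric.sphere (0 : E) 1 × Ioi (0 : ℝ),
        (⟪y', ((p.2 : ℝ) • (p.1 : E))⟫) ^ k * Real.exp (- ‖((p.2 : ℝ) • (p.1 : E))‖ ^ 2) =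
        (∑ i, y i * (p.1 : E) i) ^ k * ((p.2 : ℝ) ^ k * Real.exp (- (p.2 : ℝ) ^ 2)) := by
      intro p
      have hp : 0 < (p.2 : ℝ) := p.2.2
      rw [real_inner_smul_right, hin, norm_smul, hsph, mul_one, Real.norm_eq_abs, sq_abs, mul_pow]
      ring
    simp only [h3]
    have h4 := integral_prod_mul (μ := (volume : Measure E).toSphere) (ν := volumeIoiPow 7)
      (fun u : Metric.sphere (0 : E) 1 => (∑ i, y i * (u : E) i) ^ k)
      (fun r : Ioi (0 : ℝ) => ((r : ℝ) ^ k * Real.exp (- (r : ℝ) ^ 2)))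
    rw [h4, ipow 7 (fun r => r ^ k * Real.exp (- r ^ 2)), rad]
  rw [h2, hny] at h1
  exact h1

end Pool.Agent.Q166.E8D
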