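import Pool.Agent.Q166.E8D.Mom

/-!
# Power sums of spherical designs in dimension eight
-/

set_option autoImplicit false
set_option linter.all false

namespace Pool.Agent.Q166.E8D

open MeasureTheory MeasureTheory.Measure Set Real
open scoped RealInnerProductSpace
open Pool.Agent.Q65.EWm Pool.Agent.H159.EW

theorem J2 : J 2 = (1 / 2) * Real.sqrt Real.pi := by
  rw [J_even (by decide)]
  have : (((2 : ℕ) : ℝ) + 1) / 2 = (1 : ℕ) + 1 / 2 := by norm_num
  rw [this, Real.Gamma_nat_add_half]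
  norm_num [Nat.doubleFactorial]
  ring

theorem J4 : J 4 = (3 / 4) * Real.sqrt Real.pi := by
  rw [J_even (by decide)]
  have : (((4 : ℕ) : ℝ) + 1) / 2 = (2 : ℕ) + 1 / 2 := by norm_num
  rw [this, Real.Gamma_nat_add_half]
  norm_num [Nat.doubleFactorial]
  ring

theorem J6 : J 6 = (15 / 8) * Real.sqrt Real.pi := by
  rw [J_even (by decide)]
  have : (((6 : ℕ) : ℝ) + 1) / 2 = (3 : ℕ) + 1 / 2 := by norm_num
  rw [this, Real.Gamma_nat_add_half]
  norm_num [Nat.doubleFactorial]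
  try ring

theorem J8 : J 8 = (105 / 16) * Real.sqrt Real.pi := by
  rw [J_even (by decide)]
  have : (((8 : ℕ) : ℝ) + 1) / 2 = (4 : ℕ) + 1 / 2 := by norm_num
  rw [this, Real.Gamma_nat_add_half]
  norm_num [Nat.doubleFactorial]
  try ring

theorem R2 : (1 / 2) * Real.Gamma (((7 + 2 : ℕ) + 1) / 2) = 12 := by
  have : (((7 + 2 : ℕ) : ℝ) + 1) / 2 = (4 : ℕ) + 1 := by norm_num
  rw [this, Real.Gamma_nat_eq_factorial]
  norm_num [Nat.factorial]

theorem R4 : (1 / 2) * Real.Gamma (((7 + 4 : ℕ) + 1) / 2) = 60 := by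
  have : (((7 + 4 : ℕ) : ℝ) + 1) / 2 = (5 : ℕ) + 1 := by norm_num
  rw [this, Real.Gamma_nat_eq_factorial]
  norm_num [Nat.factorial]

theorem R6 : (1 / 2) * Real.Gamma (((7 + 6 : ℕ) + 1) / 2) = 360 := by
  have : (((7 + 6 : ℕ) : ℝ) + 1) / 2 = (6 : ℕ) + 1 := by norm_num
  rw [this, Real.Gamma_nat_eq_factorial]
  norm_num [Nat.factorial]

theorem R8 : (1 / 2) * Real.Gamma (((7 + 8 : ℕ) + 1) / 2) = 2520 := by
  have : (((7 + 8 : ℕ) : ℝ) + 1) / 2 = (7 : ℕ) + 1 := by norm_num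
  rw [this, Real.Gamma_nat_eq_factorial]
  norm_num [Nat.factorial]

/-- the volume of the sphere -/
noncomputable def Vol : ℝ := ((volume : Measure E).toSphere Set.univ).toReal

theorem Vol_pos : 0 < Vol := by
  have h := vol3
  have h2 : 0 < Real.sqrt Real.pi ^ 8 := by
    have := Real.sqrt_pos.mpr Real.pi_pos
    positivity
  unfold Vol
  linarith

/-- the moment of a linear form on the sphere -/
noncomputable def S (k : ℕ) (y : Fin 8 → ℝ) : ℝ :=
  ∫ u, (∑ i, y i * (u : E) i) ^ k ∂((volume : Measure E).toSphere)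

theorem S_odd {k : ℕ} (hk : Odd k) (y : Fin 8 → ℝ) (hy : y ≠ 0) : S k y = 0 := by
  have h := mom k y hy
  rw [J_odd hk] at h
  have hG : 0 < Real.Gamma (((7 + k : ℕ) + 1) / 2) := by
    apply Real.Gamma_pos_of_pos
    positivity
  have h2 : S k y * ((1 / 2) * Real.Gamma (((7 + k : ℕ) + 1) / 2)) = 0 := by
    unfold S
    rw [h]
    ring
  rcases mul_eq_zero.mp h2 with h3 | h3
  · exact h3
  · linarith

theorem S_of {k : ℕ} {g R : ℝ} (y : Fin 8 → ℝ) (hy : y ≠ 0) (hJ : J k = g * Real.sqrt Real.pi)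
    (hR : (1 / 2) * Real.Gamma (((7 + k : ℕ) + 1) / 2) = R) :
    S k y * R = Real.sqrt (∑ i, y i ^ 2) ^ k * g * 3 * Vol := by
  have h := mom k y hy
  rw [hJ, hR] at h
  unfold S
  rw [h]
  have h3 := vol3
  have h4 : Vol * 3 = Real.sqrt Real.pi ^ 8 := h3
  calc Real.sqrt (∑ i, y i ^ 2) ^ k * (g * Real.sqrt Real.pi * Real.sqrt Real.pi ^ 7)
      = Real.sqrt (∑ i, y i ^ 2) ^ k * g * Real.sqrt Real.pi ^ 8 := by ring
    _ = _ := by rw [← h4]; ring

/-- the polynomial `(∑ y_i X_i)^k` -/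
noncomputable def pol (k : ℕ) (y : Fin 8 → ℝ) : MvPolynomial (Fin 8) ℝ :=
  (∑ i, MvPolynomial.C (y i) * MvPolynomial.X i) ^ k

theorem pol_deg (k : ℕ) (y : Fin 8 → ℝ) : (pol k y).totalDegree ≤ k := by
  unfold pol
  refine (MvPolynomial.totalDegree_pow _ _).trans ?_
  have : (∑ i, MvPolynomial.C (y i) * MvPolynomial.X i : MvPolynomial (Fin 8) ℝ).totalDegree ≤ 1 := by
    refine (MvPolynomial.totalDegree_finsetSum _ _).trans ?_
    refine Finset.sup_le fun i _ => ?_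
    refine (MvPolynomial.totalDegree_mul _ _).trans ?_
    simp
  nlinarith

theorem pol_eval (k : ℕ) (y x : Fin 8 → ℝ) :
    MvPolynomial.eval x (pol k y) = (∑ i, y i * x i) ^ k := by
  unfold pol
  simp

/-- the power sums of a design -/
theorem psum {N : ℝ} {X : Finset (Fin 8 → ℚ)} (hd : IsDesign 8 N X) {k : ℕ} (hk : k ≤ 8)
    (y : Fin 8 → ℝ) :
    (∑ x ∈ X, (∑ i, y i * (x i : ℝ)) ^ k) * Vol = (X.card : ℝ) * (Real.sqrt N ^ k * S k y) := by
  have h := hd (pol k y) ((pol_deg k y).trans hk)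
  simp only [pol_eval] at h
  have h2 : (∫ u, (∑ i, y i * (Real.sqrt N * (u : E) i)) ^ k
      ∂((volume : Measure E).toSphere)) = Real.sqrt N ^ k * S k y := by
    unfold S
    rw [← integral_const_mul]
    refine integral_congr_ae (Filter.Eventually.of_forall fun u => ?_)
    simp only
    have h3 : ∑ i, y i * (Real.sqrt N * (u : E) i) = Real.sqrt N * ∑ i, y i * (u : E) i := by
      rw [Finset.mul_sum]
      refine Finset.sum_congr rfl fun i _ => ?_
      ring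
    rw [h3, mul_pow]
  rw [← h2]
  exact h

section
variable {N : ℝ} {X : Finset (Fin 8 → ℚ)} (hd : IsDesign 8 N X) (hN : 0 ≤ N)
  (y : Fin 8 → ℝ) (hy : y ≠ 0)
include hd hy

theorem psum_odd {k : ℕ} (hk : k ≤ 8) (ho : Odd k) : ∑ x ∈ X, (∑ i, y i * (x i : ℝ)) ^ k = 0 := by
  have h := psum hd hk y
  rw [S_odd ho y hy, mul_zero, mul_zero] at h
  rcases mul_eq_zero.mp h with h | h
  · exact h
  · exact absurd h Vol_pos.ne'

include hN

theorem psum_even {j : ℕ} (hk : 2 * j ≤ 8) {g R : ℝ} (hR0 : 0 < R)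
    (hJ : J (2 * j) = g * Real.sqrt Real.pi)
    (hR : (1 / 2) * Real.Gamma (((7 + 2 * j : ℕ) + 1) / 2) = R) :
    ∑ x ∈ X, (∑ i, y i * (x i : ℝ)) ^ (2 * j)
      = (X.card : ℝ) * (N * ∑ i, y i ^ 2) ^ j * (3 * g / R) := by
  have h := psum hd hk y
  have h2 := S_of y hy hJ hR
  have hs : 0 ≤ ∑ i, y i ^ 2 := Finset.sum_nonneg fun i _ => sq_nonneg _
  have h3 : Real.sqrt N ^ (2 * j) = N ^ j := by rw [pow_mul, Real.sq_sqrt hN]
  have h4 : Real.sqrt (∑ i, y i ^ 2) ^ (2 * j) = (∑ i, y i ^ 2) ^ j := by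
    rw [pow_mul, Real.sq_sqrt hs]
  rw [h3] at h
  rw [h4] at h2
  have hV := Vol_pos
  have h5 : S (2 * j) y = (∑ i, y i ^ 2) ^ j * g * 3 * Vol / R := by
    field_simp
    linarith
  rw [h5] at h
  have h6 : (∑ x ∈ X, (∑ i, y i * (x i : ℝ)) ^ (2 * j)) * Vol
      = ((X.card : ℝ) * (N * ∑ i, y i ^ 2) ^ j * (3 * g / R)) * Vol := by
    rw [h, mul_pow]
    field_simp
  exact mul_right_cancel₀ hV.ne' h6

theorem psum2 : ∑ x ∈ X, (∑ i, y i * (x i : ℝ)) ^ 2 = (X.card : ℝ) * (N * ∑ i, y i ^ 2) / 8 := by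
  have h := psum_even hd hN y hy (j := 1) (by norm_num) (by norm_num) J2 R2
  norm_num at h
  rw [h]; ring

theorem psum4 : ∑ x ∈ X, (∑ i, y i * (x i : ℝ)) ^ 4
    = (X.card : ℝ) * (N * ∑ i, y i ^ 2) ^ 2 * 3 / 80 := by
  have h := psum_even hd hN y hy (j := 2) (by norm_num) (by norm_num) J4 R4
  norm_num at h
  rw [h]; ring

theorem psum6 : ∑ x ∈ X, (∑ i, y i * (x i : ℝ)) ^ 6
    = (X.card : ℝ) * (N * ∑ i, y i ^ 2) ^ 3 / 64 := by
  have h := psum_even hd hN y hy (j := 3) (by norm_num) (by norm_num) J6 R6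
  norm_num at h
  rw [h]; ring

theorem psum8 : ∑ x ∈ X, (∑ i, y i * (x i : ℝ)) ^ 8
    = (X.card : ℝ) * (N * ∑ i, y i ^ 2) ^ 4 / 128 := by
  have h := psum_even hd hN y hy (j := 4) (by norm_num) (by norm_num) J8 R8
  norm_num at h
  rw [h]; ring

end

end Pool.Agent.Q166.E8D
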